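import Pool.Agent.Lib.MP_640417_ag.Cd.SumBad
import Pool.Agent.Lib.MP_640417_ag.Full.HomDim
import Pool.Agent.Lib.MP_640417_ag.Full.Supp
import Pool.Agent.Lib.MP_640417_ag.Wc.Group

/-!
# Sign functions with relations of small support
-/

namespace Pool.Agent.Lib.MP_640417_ag.Cd

open Module Finset MulAction Pool.Agent.Lib.MP_640417_ag Pool.Agent.Lib.MP_640417_ag.Far
  Pool.Agent.Lib.MP_640417_ag.Full Pool.Agent.Lib.MP_640417_ag.Sharp
  Pool.Agent.Lib.MP_640417_ag.Wc

section iso

variable {S G : Type} [Fintype S] [Group G] [MulAction G S]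

/-- The sum of the images of the equivariant maps from `U`. -/
noncomputable def isoSpan (G : Type) [Group G] [MulAction G S] (U : Submodule ℚ (S → ℚ)) :
    Submodule ℚ (S → ℚ) :=
  LinearMap.range (TensorProduct.lift ((homF G U).subtype :
    homF G U →ₗ[ℚ] (U →ₗ[ℚ] (S → ℚ))))

lemma apply_mem_isoSpan (U : Submodule ℚ (S → ℚ)) (θ : homF G U) (u : U) :
    θ.1 u ∈ isoSpan G U := by
  refine ⟨TensorProduct.tmul ℚ θ u, ?_⟩
  rw [TensorProduct.lift.tmul]
  rfl

lemma isoSpan_le (U C : Submodule ℚ (S → ℚ)) (h : ∀ (θ : homF G U) (u : U), θ.1 u ∈ C) :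
    isoSpan G U ≤ C := by
  rintro _ ⟨t, rfl⟩
  induction t using TensorProduct.induction_on with
  | zero => rw [map_zero]; exact C.zero_mem
  | tmul θ u =>
    rw [TensorProduct.lift.tmul]
    exact h θ u
  | add a b ha hb => rw [map_add]; exact C.add_mem ha hb

lemma isoSpan_stab (U : Submodule ℚ (S → ℚ)) (hU : IsStab G U) : IsStab G (isoSpan G U) := by
  rintro _ ⟨t, rfl⟩ γ
  induction t using TensorProduct.induction_on with
  | zero =>
    rw [map_zero]
    exact (isoSpan G U).zero_mem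
  | tmul θ u =>
    rw [TensorProduct.lift.tmul]
    have h1 : (fun s => (θ.1 u) (γ • s)) = θ.1 ⟨fun s => u.1 (γ • s), hU u.1 u.2 γ⟩ := by
      funext s
      exact (θ.2 u ⟨fun s => u.1 (γ • s), hU u.1 u.2 γ⟩ γ (fun _ => rfl) s).symm
    change (fun s => (θ.1 u) (γ • s)) ∈ _
    rw [h1]
    exact apply_mem_isoSpan U θ _
  | add a b ha hb =>
    rw [map_add]
    exact (isoSpan G U).add_mem ha hb

lemma finrank_isoSpan_le [Finite G] [IsPretransitive G S] (s₀ : S) (U : Submodule ℚ (S → ℚ))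
    (hU : IsStab G U) : finrank ℚ (isoSpan G U) ≤ finrank ℚ U * finrank ℚ U := by
  have h1 : finrank ℚ (isoSpan G U) ≤ finrank ℚ (TensorProduct ℚ (homF G U) U) :=
    LinearMap.finrank_range_le _
  have hfree : Module.Free ℚ (homF G U) := Module.Free.of_divisionRing ℚ (homF G U)
  have h2 : finrank ℚ (TensorProduct ℚ (homF G U) U) = finrank ℚ (homF G U) * finrank ℚ U :=
    Module.finrank_tensorProduct
  rw [h2] at h1
  refine h1.trans (Nat.mul_le_mul_right _ ?_)
  rw [pHomDim S G s₀ U hU]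
  exact Submodule.finrank_mono inf_le_left

/-- A sum of stable spaces is stable. -/
lemma stab_sup {ι : Type} (J : Finset ι) (V : ι → Submodule ℚ (S → ℚ))
    (hV : ∀ i, IsStab G (V i)) : IsStab G (J.sup V) := by
  classical
  induction J using Finset.induction_on with
  | empty =>
    intro f hf γ
    rw [Finset.sup_empty, Submodule.mem_bot] at hf ⊢
    rw [hf]
    rfl
  | insert a J _ ih =>
    intro f hf γ
    rw [Finset.sup_insert, Submodule.mem_sup] at hf ⊢
    obtain ⟨x, hx, y, hy, rfl⟩ := hf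
    exact ⟨_, hV a x hx γ, _, ih y hy γ, rfl⟩

lemma finrank_sup_le {ι : Type} (J : Finset ι) (V : ι → Submodule ℚ (S → ℚ)) (k : ℕ)
    (hV : ∀ i ∈ J, finrank ℚ (V i) ≤ k) : finrank ℚ ↥(J.sup V) ≤ k * J.card := by
  classical
  induction J using Finset.induction_on with
  | empty => simp
  | insert a J ha ih =>
    rw [Finset.sup_insert, Finset.card_insert_of_notMem ha]
    have h1 := Submodule.finrank_add_le_finrank_add_finrank (V a) (J.sup V)
    have h2 := ih (fun i hi => hV i (Finset.mem_insert_of_mem hi))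
    have h3 := hV a (Finset.mem_insert_self a J)
    linarith

end iso

/-- **Relations of small support.** -/
theorem count (hMult : StMult) (hMod : StMod) (hBig : StBig) (hTwo : StTwo)
    (hSplit : StSplit) (hSum : StSum) (hMat : StMat) (hA : StSubA)
    (hPar1 : StPar1) (hB2 : StSubB2) (hC2 : StSubC2) (hLog : StTwoLog) (hIn : StIrrIn) :
    ∃ C : ℝ, 0 < C ∧
    ∀ (S G : Type) [Fintype S] [Group G] [Finite G] [MulAction G S] [IsPretransitive G S]
      (s₀ : S) (z : G) (_ : ∀ γ : G, γ * z = z * γ) (_ : ∀ s : S, z • z • s = s)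
      (_ : ∀ s : S, z • s ≠ s) (g : ℕ) (_ : Fintype.card S = 2 * g) (_ : 2 ≤ g) (k : ℕ),
      ({e : S → ℤ | IsSgn z e ∧ ∃ v ∈ oddRel z e, v ≠ 0 ∧
        {s : S | v s ≠ 0}.ncard ≤ 4 * k}.ncard : ℝ)
      ≤ C * (min 1 ((k : ℝ) / g) * (((if 2 ∣ g then (quad s₀ z).ncard else 0 : ℕ) : ℝ)
            / Real.sqrt g
        + (((if 4 ∣ g then (quart s₀ z).ncard else 0) + (sext s₀ z).ncard : ℕ) : ℝ) / g
        + (((dih 4 s₀ z).ncard + (dih 6 s₀ z).ncard : ℕ) : ℝ) * Real.log (g + 1) / g)
        + Real.log g ^ (-(1 / 4) : ℝ)) * 2 ^ g := by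
  obtain ⟨C₁, hC₁, hsum⟩ := sum_bad hMult hMod hBig hTwo hSplit hSum hMat hA hPar1 hB2 hC2 hLog
  obtain ⟨C₂, hC₂, hfam⟩ := family_bound hMult hMod hBig hTwo hSplit hSum
  refine ⟨8 * C₁ + C₂, by positivity, ?_⟩
  intro S G _ _ _ _ _ s₀ z hz hzz hzne g hcard hg2 k
  classical
  obtain ⟨n, U, hU, hiso, hUex⟩ := exists_types S G s₀ z
  have hfin : ∀ i, (badSet z (U i)).Finite := fun i => finite_isSgn z _
  have hg0 : (0 : ℝ) < g := by
    have : 0 < g := by omega
    exact_mod_cast this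
  have hlog : 0 ≤ Real.log g := Real.log_natCast_nonneg g
  have hlog1 : 0 ≤ Real.log (g + 1) := Real.log_nonneg (by linarith)
  -- the large types
  let ι : Type := {i : Fin n // 3 ≤ finrank ℚ (U i)}
  let n₁ : ℕ := Fintype.card ι
  let en : Fin n₁ ≃ ι := (Fintype.equivFin ι).symm
  let U₁ : Fin n₁ → Submodule ℚ (S → ℚ) := fun j => U (en j).1
  have hU₁ : ∀ j, IsIrr G (U₁ j) ∧ IsOddSp z (U₁ j) := fun j => hU _
  have hiso₁ : ∀ i j, i ≠ j → ¬ IsoF G (U₁ i) (U₁ j) := by
    intro i j hij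
    apply hiso
    intro h
    exact hij (en.injective (Subtype.ext h))
  have h3 : ∀ j, 3 ≤ finrank ℚ (U₁ j) := fun j => (en j).2
  have h4 := hfam S G s₀ z hz hzz hzne g hcard hg2 n₁ U₁ hU₁ hiso₁
  have hn1 : {j : Fin n₁ | finrank ℚ (U₁ j) = 1}.ncard = 0 := by
    have h5 : {j : Fin n₁ | finrank ℚ (U₁ j) = 1} = ∅ := by
      ext j
      simp only [Set.mem_ofPred_eq, Set.mem_empty_iff_false, iff_false]
      have := h3 j
      omega
    rw [h5]
    simp
  have hn2 : {j : Fin n₁ | finrank ℚ (U₁ j) = 2 ∧ finrank ℚ (endF G (U₁ j)) =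
      finrank ℚ ↥(U₁ j ⊓ invF ℚ (stabilizer G s₀))}.ncard = 0 := by
    have h5 : {j : Fin n₁ | finrank ℚ (U₁ j) = 2 ∧ finrank ℚ (endF G (U₁ j)) =
        finrank ℚ ↥(U₁ j ⊓ invF ℚ (stabilizer G s₀))} = ∅ := by
      ext j
      simp only [Set.mem_ofPred_eq, Set.mem_empty_iff_false, iff_false]
      rintro ⟨h6, -⟩
      have := h3 j
      omega
    rw [h5]
    simp
  have hn3 : {j : Fin n₁ | finrank ℚ (U₁ j) = 2 ∧ finrank ℚ (endF G (U₁ j)) = 1 ∧
      finrank ℚ ↥(U₁ j ⊓ invF ℚ (stabilizer G s₀)) = 2}.ncard = 0 := by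
    have h5 : {j : Fin n₁ | finrank ℚ (U₁ j) = 2 ∧ finrank ℚ (endF G (U₁ j)) = 1 ∧
        finrank ℚ ↥(U₁ j ⊓ invF ℚ (stabilizer G s₀)) = 2} = ∅ := by
      ext j
      simp only [Set.mem_ofPred_eq, Set.mem_empty_iff_false, iff_false]
      rintro ⟨h6, -⟩
      have := h3 j
      omega
    rw [h5]
    simp
  rw [hn1, hn2, hn3] at h4
  simp only [Nat.cast_zero, zero_div, zero_mul, zero_add] at h4
  -- the sum over all types
  have h5 := hsum S G s₀ z hz hzz hzne g hcard hg2 n U hU hiso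
  set r : ℝ := ((if 2 ∣ g then (quad s₀ z).ncard else 0 : ℕ) : ℝ) / Real.sqrt g
        + (((if 4 ∣ g then (quart s₀ z).ncard else 0) + (sext s₀ z).ncard : ℕ) : ℝ) / g
        + (((dih 4 s₀ z).ncard + (dih 6 s₀ z).ncard : ℕ) : ℝ) * Real.log (g + 1) / g with hr
  have hr0 : 0 ≤ r := by
    rw [hr]
    have h1 : 0 ≤ ((if 2 ∣ g then (quad s₀ z).ncard else 0 : ℕ) : ℝ) / Real.sqrt g := by
      positivity
    have h2 : 0 ≤ (((if 4 ∣ g then (quart s₀ z).ncard else 0) + (sext s₀ z).ncard : ℕ) : ℝ)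
      / g := by positivity
    have h3 : 0 ≤ (((dih 4 s₀ z).ncard + (dih 6 s₀ z).ncard : ℕ) : ℝ) * Real.log (g + 1) / g := by
      positivity
    linarith
  set l : ℝ := Real.log g ^ (-(1 / 4) : ℝ) with hl
  have hl0 : 0 ≤ l := Real.rpow_nonneg hlog _
  have h2g : (0 : ℝ) < 2 ^ g := by positivity
  set T : Set (S → ℤ) := {e : S → ℤ | IsSgn z e ∧ ∃ v ∈ oddRel z e, v ≠ 0 ∧
        {s : S | v s ≠ 0}.ncard ≤ 4 * k} with hT
  set B : Set (S → ℤ) := ⋃ j ∈ (Finset.univ : Finset (Fin n₁)), badSet z (U₁ j) with hB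
  have hTfin : T.Finite := finite_isSgn z _
  have hBfin : B.Finite := Set.Finite.biUnion (Set.toFinite _) (fun j _ => finite_isSgn z _)
  have hBcard : (B.ncard : ℝ) ≤ C₂ * l * 2 ^ g := by
    refine le_trans ?_ h4
    have h6 : B.ncard ≤ ∑ j, (badSet z (U₁ j)).ncard := Finset.set_ncard_biUnion_le _ _
    exact_mod_cast h6
  -- the number of bad types
  let J : (S → ℤ) → Finset (Fin n) := fun e => Finset.univ.filter (fun i => e ∈ badSet z (U i))
  set μ : ℝ := min 1 ((k : ℝ) / g) with hμ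
  have hμ0 : 0 ≤ μ := le_min zero_le_one (by positivity)
  have hkey : ∀ e ∈ T \ B, (1 : ℝ) ≤ 8 * μ * (J e).card := by
    rintro e ⟨⟨he, v, hv, hv0, hsupp⟩, heB⟩
    -- the relation space is contained in the sum of the isotypic spaces
    have hle : relR z e ≤ (J e).sup (fun i => isoSpan G (U i)) := by
      by_contra hcon
      obtain ⟨U', hU'1, hU'2, hU'3⟩ := hIn S G (relR z e) _ (relR_stab z hz e)
        (stab_sup (J e) (fun i => isoSpan G (U i)) (fun i => isoSpan_stab _ (hU i).1.2.1)) hcon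
      have hodd : IsOddSp z U' := fun f hf s => (hU'2 hf).1 s
      obtain ⟨i, θ, hθ⟩ := hUex U' hU'1 hodd
      have hbad : e ∈ badSet z (U i) := by
        refine ⟨he, U', hU'1.2.1, ⟨θ, hθ⟩, ?_⟩
        intro f hf
        have := (hU'2 hf).2 1
        simpa using this
      apply hU'3
      refine le_trans ?_ (Finset.le_sup (f := fun i => isoSpan G (U i))
        (show i ∈ J e from Finset.mem_filter.mpr ⟨Finset.mem_univ _, hbad⟩))
      intro f hf
      have hmem : (U'.subtype.comp θ.toLinearMap) ∈ homF G (U i) := by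
        intro a b γ hab s
        exact hθ a b γ hab s
      have h6 := apply_mem_isoSpan (U i) ⟨_, hmem⟩ (θ.symm ⟨f, hf⟩)
      simpa using h6
    have hdim : finrank ℚ (relR z e) ≤ 4 * (J e).card := by
      refine (Submodule.finrank_mono hle).trans (finrank_sup_le _ _ 4 ?_)
      intro i hi
      have hi' : e ∈ badSet z (U i) := (Finset.mem_filter.mp hi).2
      have h6 : finrank ℚ (U i) ≤ 2 := by
        by_contra hlt
        apply heB
        rw [hB]
        simp only [Finset.mem_univ, Set.iUnion_true, Set.mem_iUnion]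
        refine ⟨en.symm ⟨i, by omega⟩, ?_⟩
        have h7 : U₁ (en.symm ⟨i, by omega⟩) = U i := by
          simp only [U₁, Equiv.apply_symm_apply]
        rw [h7]
        exact hi'
      refine (finrank_isoSpan_le s₀ (U i) (hU i).1.2.1).trans ?_
      nlinarith
    have hvR : (fun s => (v s : ℚ)) ∈ relR z e := by
      refine ⟨fun s => ?_, fun δ => ?_⟩
      · change ((v (z • s) : ℤ) : ℚ) = - ((v s : ℤ) : ℚ)
        rw [hv.1 s]
        push_cast
        rfl
      · change ∑ s, ((v s : ℤ) : ℚ) * ((e (δ • s) : ℤ) : ℚ) = 0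
        have := hv.2 δ
        exact_mod_cast this
    have hvR0 : (fun s => (v s : ℚ)) ≠ 0 := by
      intro h
      apply hv0
      funext s
      have := congrFun h s
      simp only [Pi.zero_apply] at this
      exact_mod_cast this
    have h6 := pSupp S G ℚ (relR z e) (relR_stab z hz e) _ hvR hvR0
    have h7 : {s : S | ((v s : ℤ) : ℚ) ≠ 0}.ncard ≤ 4 * k := by
      have : {s : S | ((v s : ℤ) : ℚ) ≠ 0} = {s : S | v s ≠ 0} := by
        ext s
        simp
      rw [this]
      exact hsupp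
    rw [hcard] at h6
    have h8 : 2 * g ≤ 4 * (J e).card * (4 * k) := by
      refine h6.trans ?_
      exact Nat.mul_le_mul hdim h7
    have h9 : g ≤ 8 * k * (J e).card := by nlinarith
    have hJ1 : 1 ≤ (J e).card := by
      rw [Nat.one_le_iff_ne_zero]
      intro h0
      rw [h0] at h9
      omega
    have hJ1' : (1 : ℝ) ≤ (J e).card := by exact_mod_cast hJ1
    have h9' : (g : ℝ) ≤ 8 * k * (J e).card := by exact_mod_cast h9
    rw [hμ]
    rcases le_total (1 : ℝ) ((k : ℝ) / g) with h10 | h10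
    · rw [min_eq_left h10]
      linarith
    · rw [min_eq_right h10]
      have : 8 * ((k : ℝ) / g) * (J e).card = 8 * k * (J e).card / g := by ring
      rw [this, le_div_iff₀ hg0]
      linarith
  have hTB : ((T \ B).ncard : ℝ) ≤ 8 * μ * ∑ i, ((badSet z (U i)).ncard : ℝ) := by
    have hfinTB : (T \ B).Finite := hTfin.subset Set.diff_subset
    rw [Set.ncard_eq_toFinset_card _ hfinTB]
    have h6 : ((hfinTB.toFinset.card : ℕ) : ℝ) = ∑ e ∈ hfinTB.toFinset, (1 : ℝ) := by simp
    rw [h6]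
    calc ∑ e ∈ hfinTB.toFinset, (1 : ℝ)
        ≤ ∑ e ∈ hfinTB.toFinset, 8 * μ * ((J e).card : ℝ) := by
          apply Finset.sum_le_sum
          intro e he
          exact hkey e (hfinTB.mem_toFinset.mp he)
      _ = 8 * μ * ∑ e ∈ hfinTB.toFinset, ((J e).card : ℝ) := by rw [Finset.mul_sum]
      _ = 8 * μ * ∑ i, ((hfinTB.toFinset.filter (fun e => e ∈ badSet z (U i))).card : ℝ) := by
          congr 1
          have h7 : ∀ e, ((J e).card : ℝ) = ∑ i, if e ∈ badSet z (U i) then (1 : ℝ) else 0 := by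
            intro e
            simp only [J, Finset.card_filter]
            push_cast
            rfl
          simp only [h7]
          rw [Finset.sum_comm]
          apply Finset.sum_congr rfl
          intro i _
          rw [Finset.card_filter]
          push_cast
          rfl
      _ ≤ 8 * μ * ∑ i, ((badSet z (U i)).ncard : ℝ) := by
          apply mul_le_mul_of_nonneg_left _ (by positivity)
          apply Finset.sum_le_sum
          intro i _
          rw [Set.ncard_eq_toFinset_card _ (hfin i)]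
          exact_mod_cast Finset.card_le_card (by
            intro e he
            rw [Finset.mem_filter] at he
            exact (hfin i).mem_toFinset.mpr he.2)
  have hTcard : (T.ncard : ℝ) ≤ ((T \ B).ncard : ℝ) + B.ncard := by
    have h6 : T.ncard ≤ (T \ B).ncard + B.ncard := by
      have h7 : T ⊆ (T \ B) ∪ B := by
        intro e he
        by_cases h : e ∈ B
        · exact Or.inr h
        · exact Or.inl ⟨he, h⟩
      exact (Set.ncard_le_ncard h7 ((hTfin.subset Set.diff_subset).union hBfin)).trans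
        (Set.ncard_union_le _ _)
    exact_mod_cast h6
  have hμ1 : μ ≤ 1 := min_le_left _ _
  calc (T.ncard : ℝ) ≤ 8 * μ * (C₁ * (r + l) * 2 ^ g) + C₂ * l * 2 ^ g := by
        refine hTcard.trans (add_le_add (hTB.trans ?_) hBcard)
        exact mul_le_mul_of_nonneg_left h5 (by positivity)
    _ = (8 * C₁ * (μ * r) + 8 * C₁ * (μ * l) + C₂ * l) * 2 ^ g := by ring
    _ ≤ ((8 * C₁ + C₂) * (μ * r + l)) * 2 ^ g := by
        apply mul_le_mul_of_nonneg_right _ h2g.le
        have h6 : μ * l ≤ l := by nlinarith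
        nlinarith [mul_nonneg hC₂.le (mul_nonneg hμ0 hr0), mul_nonneg hC₁.le hl0]

end Pool.Agent.Lib.MP_640417_ag.Cd
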