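import Pool.Agent.Lib.MP_640417_ag.Cd.Count
import Pool.Agent.Lib.MP_640417_ag.Sharp.SpecF
import Pool.Agent.Lib.MP_640417_ag.Sharp.Final

/-!
# Relations of small support: CM fields and exotic classes of bounded codimension
-/

namespace Pool.Agent.Lib.MP_640417_ag.Cd

open Module Finset MulAction NumberField Pool.Agent.Lib.MP_640417_ag
  Pool.Agent.Lib.MP_640417_ag.Far Pool.Agent.Lib.MP_640417_ag.Full
  Pool.Agent.Lib.MP_640417_ag.Sharp

/-- The bound for CM fields. -/
theorem fields (hUp : ∃ C : ℝ, 0 < C ∧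
    ∀ (S G : Type) [Fintype S] [Group G] [Finite G] [MulAction G S] [IsPretransitive G S]
      (s₀ : S) (z : G) (_ : ∀ γ : G, γ * z = z * γ) (_ : ∀ s : S, z • z • s = s)
      (_ : ∀ s : S, z • s ≠ s) (g : ℕ) (_ : Fintype.card S = 2 * g) (_ : 2 ≤ g) (k : ℕ),
      ({e : S → ℤ | IsSgn z e ∧ ∃ v ∈ oddRel z e, v ≠ 0 ∧
        {s : S | v s ≠ 0}.ncard ≤ 4 * k}.ncard : ℝ)
      ≤ C * (min 1 ((k : ℝ) / g) * (((if 2 ∣ g then (quad s₀ z).ncard else 0 : ℕ) : ℝ)
            / Real.sqrt g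
        + (((if 4 ∣ g then (quart s₀ z).ncard else 0) + (sext s₀ z).ncard : ℕ) : ℝ) / g
        + (((dih 4 s₀ z).ncard + (dih 6 s₀ z).ncard : ℕ) : ℝ) * Real.log (g + 1) / g)
        + Real.log g ^ (-(1 / 4) : ℝ)) * 2 ^ g)
    (hEq : StFieldEq) : ∃ C : ℝ, 0 < C ∧
    ∀ (E : Type) [Field E] [NumberField E] [IsCMField E] (g : ℕ) (_ : finrank ℚ E = 2 * g)
      (_ : 2 ≤ g) (z : galGroup E) (_ : ∀ φ : Emb E, z • φ = conjEmb φ) (k : ℕ),
      ({e : Emb E → ℤ | IsSgn z e ∧ ∃ v ∈ oddRel z e, v ≠ 0 ∧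
        {s : Emb E | v s ≠ 0}.ncard ≤ 4 * k}.ncard : ℝ)
      ≤ C * (min 1 ((k : ℝ) / g) * rate E g + Real.log g ^ (-(1 / 4) : ℝ)) * 2 ^ g := by
  obtain ⟨C, hC, hUp⟩ := hUp
  refine ⟨2 * C, by positivity, ?_⟩
  intro E _ _ _ g hE hg2 z hzs k
  classical
  obtain ⟨φ₀⟩ : Nonempty (Emb E) := by
    rw [← Fintype.card_pos_iff, card_emb]
    exact finrank_pos
  have hpre : IsPretransitive (galGroup E) (Emb E) := isPretransitive_galGroup
  have hz : ∀ γ : galGroup E, γ * z = z * γ := by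
    intro γ
    obtain ⟨τ, hτ⟩ := exists_of_galGroup γ
    apply Subtype.ext
    apply Equiv.ext
    intro φ
    show γ • (z • φ) = z • (γ • φ)
    rw [hzs, hzs, hτ, hτ, galEmb_conjEmb]
  have hzz : ∀ φ : Emb E, z • z • φ = φ := fun φ => by rw [hzs, hzs, conjEmb_conjEmb]
  have hzne : ∀ φ : Emb E, z • φ ≠ φ := fun φ => by rw [hzs]; exact conjEmb_ne φ
  have hcard : Fintype.card (Emb E) = 2 * g := by rw [card_emb, hE]
  obtain ⟨e1, e2, e3, e4⟩ := hEq E φ₀ z hzs
  have h1 := hUp (Emb E) (galGroup E) φ₀ z hz hzz hzne g hcard hg2 k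
  rw [← e1, ← e2, ← e3, ← e4, ← e4] at h1
  refine h1.trans ?_
  have hg0 : (0 : ℝ) < g := by
    have : 0 < g := by omega
    exact_mod_cast this
  have hg2' : (2 : ℝ) ≤ g := by exact_mod_cast hg2
  have hlog0 : 0 ≤ Real.log g := Real.log_natCast_nonneg g
  have hlog1 : 0 ≤ Real.log (g + 1) := Real.log_nonneg (by linarith)
  have hlog : Real.log (g + 1) ≤ 2 * Real.log g := by
    have h2 : Real.log ((g : ℝ) + 1) ≤ Real.log ((g : ℝ) ^ 2) := by
      apply Real.log_le_log (by linarith)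
      nlinarith
    rw [Real.log_pow] at h2
    exact_mod_cast h2
  have hl0 : 0 ≤ Real.log g ^ (-(1 / 4) : ℝ) := Real.rpow_nonneg hlog0 _
  rw [rate]
  push_cast
  set q : ℝ := ((numDih E 4 : ℝ) + numDih E 6) with hq
  have hq0 : 0 ≤ q := by positivity
  have h3 : q * Real.log (g + 1) / g ≤ 2 * (q * Real.log g / g) := by
    rw [← mul_div_assoc]
    apply div_le_div_of_nonneg_right _ hg0.le
    nlinarith
  have ha : 0 ≤ (if 2 ∣ g then (numQuad E : ℝ) else 0) / Real.sqrt g := by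
    split_ifs <;> positivity
  have hb : 0 ≤ ((if 4 ∣ g then (numQuart E : ℝ) else 0) + numSext E) / g := by
    split_ifs <;> positivity
  have hc : (if 2 ∣ g then (numQuad E : ℝ) / Real.sqrt g else 0)
      = (if 2 ∣ g then (numQuad E : ℝ) else 0) / Real.sqrt g := by
    split_ifs <;> simp
  rw [hc]
  have h2g : (0 : ℝ) < 2 ^ g := by positivity
  set μ : ℝ := min 1 ((k : ℝ) / g) with hμ
  have hμ0 : 0 ≤ μ := le_min zero_le_one (by positivity)
  apply mul_le_mul_of_nonneg_right _ h2g.le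
  have h4 : μ * (q * Real.log (g + 1) / g) ≤ μ * (2 * (q * Real.log g / g)) :=
    mul_le_mul_of_nonneg_left h3 hμ0
  nlinarith [mul_nonneg hC.le (mul_nonneg hμ0 ha), mul_nonneg hC.le (mul_nonneg hμ0 hb),
    mul_nonneg hC.le hl0, mul_le_mul_of_nonneg_left h4 hC.le]

/-- An exotic class of codimension `i` gives a relation with at most `4 i` nonzero values. -/
lemma exists_small_relation {E : Type} [Field E] [NumberField E] [IsCMField E] {Φ : Set (Emb E)}
    {Γ : Type} [Group Γ] [TopologicalSpace Γ] {F : Type} [Field F]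
    (ρ : CMGaloisRep Φ Γ F) (hΦ : IsCMType Φ) (n i : ℕ) (x : ExteriorAlgebra F (H1 E n F))
    (hx : ExoticTateClass (ρ.onH1 n) ρ.χ i x) :
    ∃ v ∈ relLattice Φ, v ≠ 0 ∧ {φ : Emb E | v φ ≠ 0}.ncard ≤ 4 * i := by
  classical
  obtain ⟨x', -, hx'⟩ := (exoticTateClass_iff ρ n i x).mp hx
  obtain ⟨s, hs, hw, φ₁, hφ₁⟩ := exists_of_isExotic ρ hΦ x' hx'
  have hsum : ∀ τ : AbsGal, ∑ φ, multFun s φ * sgnZ Φ (galEmb τ φ) = 0 := by
    intro τ
    have e1 : ∀ φ, multFun s φ * sgnZ Φ (galEmb τ φ)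
        = 2 * (Set.indicator {φ : Emb E | galEmb τ φ ∈ Φ} (multFun s) φ) - multFun s φ := by
      intro φ
      by_cases h : galEmb τ φ ∈ Φ
      · rw [Set.indicator_of_mem (by exact h)]
        simp only [sgnZ, h, if_true]
        ring
      · rw [Set.indicator_of_notMem (by exact h)]
        simp only [sgnZ, h, if_false]
        ring
    rw [Finset.sum_congr rfl (fun φ _ => e1 φ), Finset.sum_sub_distrib, ← Finset.mul_sum, hw τ]
    have e2 : ∑ φ, multFun s φ = 2 * (i : ℤ) := by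
      have e3 : ∑ φ : Emb E, (s.filter (fun p => p.1 = φ)).card = s.card := by
        symm
        exact Finset.card_eq_sum_card_fiberwise (fun p _ => Finset.mem_univ p.1)
      have e4 : ∑ φ, multFun s φ = ((∑ φ : Emb E, (s.filter (fun p => p.1 = φ)).card : ℕ) : ℤ) := by
        rw [Nat.cast_sum]
        apply Finset.sum_congr rfl
        intro φ _
        simp only [multFun]
      rw [e4, e3, hs]; push_cast; ring
    rw [e2]; ring
  have hsum2 : ∀ τ : AbsGal, ∑ φ, multFun s (conjEmb φ) * sgnZ Φ (galEmb τ φ) = 0 := by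
    intro τ
    have e1 : ∑ φ, multFun s (conjEmb φ) * sgnZ Φ (galEmb τ φ)
        = ∑ φ, multFun s φ * sgnZ Φ (galEmb τ (conjEmb φ)) := by
      have hbij : Function.Bijective (conjEmb (E := E)) :=
        Function.Involutive.bijective conjEmb_conjEmb
      apply Fintype.sum_bijective conjEmb hbij
      intro φ
      rw [conjEmb_conjEmb]
    rw [e1]
    have e2 : ∀ φ, multFun s φ * sgnZ Φ (galEmb τ (conjEmb φ))
        = - (multFun s φ * sgnZ Φ (galEmb τ φ)) := by
      intro φ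
      rw [galEmb_conjEmb, sgnZ_conj hΦ]; ring
    rw [Finset.sum_congr rfl (fun φ _ => e2 φ), Finset.sum_neg_distrib, hsum, neg_zero]
  refine ⟨fun φ => multFun s φ - multFun s (conjEmb φ), ⟨fun φ => ?_, fun τ => ?_⟩, ?_, ?_⟩
  · simp only [conjEmb_conjEmb]; ring
  · simp only [sub_mul]
    rw [Finset.sum_sub_distrib, hsum τ, hsum2 τ, sub_zero]
  · intro h
    have := congrFun h φ₁
    simp only [Pi.zero_apply] at this
    apply hφ₁
    linarith
  · have hsub : {φ : Emb E | multFun s φ - multFun s (conjEmb φ) ≠ 0} ⊆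
        ((s.image (fun p => p.1) ∪ s.image (fun p => conjEmb p.1) : Finset (Emb E)) :
          Set (Emb E)) := by
      intro φ hφ
      by_contra hcon
      apply hφ
      rw [Finset.mem_coe, Finset.mem_union, not_or] at hcon
      have h1 : multFun s φ = 0 := by
        simp only [multFun]
        rw [Nat.cast_eq_zero, Finset.card_eq_zero, Finset.filter_eq_empty_iff]
        intro p hp hpφ
        exact hcon.1 (Finset.mem_image.mpr ⟨p, hp, hpφ⟩)
      have h2 : multFun s (conjEmb φ) = 0 := by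
        simp only [multFun]
        rw [Nat.cast_eq_zero, Finset.card_eq_zero, Finset.filter_eq_empty_iff]
        intro p hp hpφ
        refine hcon.2 (Finset.mem_image.mpr ⟨p, hp, ?_⟩)
        rw [hpφ, conjEmb_conjEmb]
      rw [h1, h2, sub_zero]
    calc {φ : Emb E | multFun s φ - multFun s (conjEmb φ) ≠ 0}.ncard
        ≤ (s.image (fun p => p.1) ∪ s.image (fun p => conjEmb p.1)).card := by
          rw [← Set.ncard_coe_finset]
          exact Set.ncard_le_ncard hsub (Finset.finite_toSet _)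
      _ ≤ s.card + s.card := (Finset.card_union_le _ _).trans
          (add_le_add Finset.card_image_le Finset.card_image_le)
      _ = 4 * i := by rw [hs]; ring

end Pool.Agent.Lib.MP_640417_ag.Cd
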